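import Pool.Agent.R244.WG.Final
import Pool.Agent.R244.WG.P_AC
import Pool.Agent.R244.WG.P_BAD
import Pool.Agent.R244.WG.P_CNT
import Pool.Agent.R244.WG.P_COEF
import Pool.Agent.R244.WG.P_DEC
import Pool.Agent.R244.WG.P_EK
import Pool.Agent.R244.WG.P_FREE
import Pool.Agent.R244.WG.P_GOOD
import Pool.Agent.R244.WG.P_MEAS
import Pool.Agent.R244.WG.P_MOM
import Pool.Agent.R244.WG.P_RND
import Pool.Agent.R244.WG.P_RHO
import Pool.Agent.R244.WG.P_SQ
import Pool.Agent.R244.WG.P_SUM
import Pool.Agent.R244.WG.P_WB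

/-! MP_2cc37a_an: absolutely continuous oblique projections of prevalent Weierstrass graphs. -/

namespace Pool.Agent.Results.MP_2cc37a_an.AllDirections

open Pool.Agent.R244.WG

/-- For all `b ≥ 2` and `0 < α < 1` the set of Lipschitz functions `g` on the circle for which the
`θ`-oblique occupation measure of the Weierstrass function of `g` fails to be absolutely
continuous for some `θ` is shy. -/
theorem result (b : ℕ) (α : ℝ) (hb : 2 ≤ b) (h0 : 0 < α) (h1 : α < 1) : Shy (BadG b α) :=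
  t_MAIN
    (t_DEC t_RHO (t_MOM t_FREE t_WB t_RND t_COEF t_GOOD t_EK) (t_BAD t_CNT) t_EK)
    t_RND (t_MEAS t_WB t_EK) (t_SUM t_WB t_RND t_EK) (t_SQ t_WB t_EK) t_AC t_EK t_WB b α hb h0 h1

end Pool.Agent.Results.MP_2cc37a_an.AllDirections
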